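import Pool.Agent.Lib_MP_49ddc8_l.LFin
import Pool.Agent.Lib_MP_49ddc8.ExF

/-!
# The birational section conjecture over every finitely generated field which is not a number field

Let `κ` be finitely generated over `ℚ` and not algebraic over `ℚ`, and let `K` be any extension of `κ` of transcendence degree one.
Then every section of `G_K → G_κ` is defined by exactly one `κ`-rational place of `K`, and every `κ`-rational place of `K` defines a
section. This is the conclusion of the frozen statement `S00175` (without its hypotheses on the genus, on the finite generation of
`K/κ` and on the constants of `K`) for all base fields except number fields.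

The proof. Write `κ = k(u)(θ)`. For a prime `p` and an embedding `k → ℚ_p` the Gauss norm of `ℚ_p(u)` gives a henselian field `L` with
residue field `𝔽_p(u)`, algebraic over `k(u)`. Rigid elements (Arason, Elman, Jacob; Ware) for the fixed field of the section over the
finite extensions of `L κ` give a valuation ring `W` above the Gauss norm which is stable under the section over `L κ`. The residue
field of `W` on the fixed field is that of `L κ`: it has the right classes modulo `p`-th powers, and `u` is not a `p`-th power in it
(norms from the unramified extension of degree `p`). So elements `x` of the fixed field of the section have reductions `x_p`, algebraic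
functions of `u` over `𝔽_p`. The square classes of `x - e` for integers `e` have representatives in `κ`, which bounds the height of
`x_p` (Mason, Stothers) and, by a linear system, makes `x_p` the reduction of a fixed algebraic function. So the limit of the `W` over
the primes is a nontrivial valuation ring which contains the algebraic closure of `κ`; it is stable under the whole section.
-/

set_option autoImplicit false

namespace Pool.Agent.Results.MP_49ddc8_ag.FinitelyGenerated

/-- Let `κ` be finitely generated over `ℚ`, not algebraic over `ℚ`, and let `K/κ` have transcendence degree one. Then for every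
continuous section `s` of `G_K → G_κ` there is exactly one `κ`-rational place of `K` which defines `s`, and every `κ`-rational place
of `K` defines a continuous section. -/
theorem result :
    ∀ (κ : Type) [Field κ] [CharZero κ] (K : Type) [Field K] [Algebra κ K],
      (⊤ : IntermediateField ℚ κ).FG → ¬ Algebra.IsAlgebraic ℚ κ →
      (∃ t : K, Transcendental κ t ∧
        Algebra.IsAlgebraic (IntermediateField.adjoin κ {t}) K) →
      (∀ s : ((algebraicClosure κ (AlgebraicClosure K)) ≃ₐ[κ]
                (algebraicClosure κ (AlgebraicClosure K))) →*
              (AlgebraicClosure K ≃ₐ[K] AlgebraicClosure K),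
          Continuous s →
          (∀ (τ : (algebraicClosure κ (AlgebraicClosure K)) ≃ₐ[κ]
                (algebraicClosure κ (AlgebraicClosure K)))
             (x : algebraicClosure κ (AlgebraicClosure K)),
              s τ (x : AlgebraicClosure K) =
                ((τ x : algebraicClosure κ (AlgebraicClosure K)) : AlgebraicClosure K)) →
          ∃! O : ValuationSubring K,
            ((∀ c : κ, algebraMap κ K c ∈ O) ∧ O ≠ ⊤ ∧
              ∀ x ∈ O, ∃ c : κ, x - algebraMap κ K c = 0 ∨ (x - algebraMap κ K c)⁻¹ ∉ O) ∧
            ∃ W : ValuationSubring (AlgebraicClosure K),
              W.comap (algebraMap K (AlgebraicClosure K)) = O ∧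
              ∀ τ, ∀ y : AlgebraicClosure K, (s τ y ∈ W ↔ y ∈ W)) ∧
      (∀ O : ValuationSubring K,
          ((∀ c : κ, algebraMap κ K c ∈ O) ∧ O ≠ ⊤ ∧
            ∀ x ∈ O, ∃ c : κ, x - algebraMap κ K c = 0 ∨ (x - algebraMap κ K c)⁻¹ ∉ O) →
          ∃ s : ((algebraicClosure κ (AlgebraicClosure K)) ≃ₐ[κ]
                  (algebraicClosure κ (AlgebraicClosure K))) →*
                (AlgebraicClosure K ≃ₐ[K] AlgebraicClosure K),
            Continuous s ∧
            (∀ (τ : (algebraicClosure κ (AlgebraicClosure K)) ≃ₐ[κ]
                  (algebraicClosure κ (AlgebraicClosure K)))
               (x : algebraicClosure κ (AlgebraicClosure K)),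
                s τ (x : AlgebraicClosure K) =
                  ((τ x : algebraicClosure κ (AlgebraicClosure K)) : AlgebraicClosure K)) ∧
            ∃ W : ValuationSubring (AlgebraicClosure K),
              W.comap (algebraMap K (AlgebraicClosure K)) = O ∧
              ∀ τ, ∀ y : AlgebraicClosure K, (s τ y ∈ W ↔ y ∈ W)) := by
  intro κ _ _ K _ _ h hna htd
  exact ⟨fun s hs hres => BSC.bsc_fgen κ K h hna htd s hs hres, fun O hO => BSC.exists_section' κ K O hO⟩

end Pool.Agent.Results.MP_49ddc8_ag.FinitelyGenerated
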